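import Pool.Agent.MP_1246c0_nt.H12.SpecR

/-! The probability of failure of higher order. -/

namespace Pool.Agent.MP_1246c0_nt.H12

open Polynomial Finset Matrix

namespace MOD

theorem er_le {γ x : ℕ} (hx : 63 ≤ x) (hγ : γ ≤ x + x * x) : Er γ x (x ^ 5) ≤ 1 / 2 ^ γ := by
  have h1 : γ + 1 ≤ 2 * x ^ 2 := by nlinarith
  have h2 : γ + x + 2 ≤ 2 * x ^ 2 := by nlinarith
  have h3 : γ ≤ x ^ 2 * x ^ 2 := by nlinarith
  have h4 : (γ + 1) * (γ + x + 2) ≤ 2 * x ^ 2 * (2 * x ^ 2) := Nat.mul_le_mul h1 h2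
  have h5 : 63 * x ^ 4 ≤ x * x ^ 4 := Nat.mul_le_mul_right _ hx
  have h6 : 5 * (γ + 1) * (γ + x + 2) + γ ≤ x ^ 5 / 3 := by
    rw [Nat.le_div_iff_mul_le (by norm_num)]
    nlinarith
  rw [Er, div_le_div_iff₀ (by positivity) (by positivity), one_mul, ← pow_add]
  exact pow_le_pow_right₀ (by norm_num) h6

theorem fr {Λ ι : Type} [CommRing Λ] [Fintype ι] [DecidableEq ι] (au : Λ →+* F2)
    (S : Matrix ι ι Λ) (c : ι → Λ) {B J : Finset ι} (P : Finset ι) (b : Bool) (h : J ⊆ B) :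
    Fr au S c B B P ∅ J b :=
  ⟨h, inter_subset_right, Subset.refl _, fun _ => rfl, by simp, disjoint_empty_left _,
    disjoint_empty_left _, fun y hy _ _ => funext fun l => hy l (notMem_empty l)⟩

end MOD

open MOD

theorem rowMOD : OfMOD := by
  rintro hA hM ⟨C, hC⟩ hW
  refine ⟨32 * |C|, 63, ?_⟩
  intro Λ ι _ _ _ _ st au τ N S c B P J b x f hL hx hO h1 hN hf
  obtain ⟨G, _, _, u, hG, hB⟩ := hW Λ st au τ N hL h1
  let 𝓘 : ℕ → Finset (Ideal Λ[X]) := fun γ => (hC Λ st au τ N γ hL).1.toFinset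
  have m𝓘 : ∀ γ I, I ∈ 𝓘 γ ↔ Nat.card (Λ[X] ⧸ I) = 2 ^ γ := fun γ I => Set.Finite.mem_toFinset _
  have c𝓘 : ∀ γ, ((𝓘 γ).card : ℝ) ≤ |C| * (7 / 2) ^ γ := fun γ => by
    rw [← Set.ncard_eq_toFinset_card _ (hC Λ st au τ N γ hL).1]
    exact (hC Λ st au τ N γ hL).2.trans (mul_le_mul_of_nonneg_right (le_abs_self C) (by positivity))
  have s1 : ∀ H, ind (BadM au τ N f (S + H) c P b) ≤ ∑ γ ∈ Ico N (N + N * f + 1), ∑ I ∈ 𝓘 γ,
      2 / 2 ^ γ * (Sur (S + H) c P 0 b (u I) : ℝ) := by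
    intro H
    unfold ind
    split_ifs with h
    · obtain ⟨I, γ, a1, a2, a3, a4⟩ := hB ι (S + H) c P b f h
      have a5 : (1 : ℝ) ≤ 2 / 2 ^ γ * (Sur (S + H) c P 0 b (u I) : ℝ) := by
        rw [div_mul_eq_mul_div, le_div_iff₀ (by positivity), one_mul]
        exact_mod_cast a4
      refine a5.trans (le_trans ?_ (single_le_sum (f := fun γ => ∑ I ∈ 𝓘 γ,
        2 / 2 ^ γ * (Sur (S + H) c P 0 b (u I) : ℝ)) (fun _ _ => by positivity)
        (mem_Ico.2 ⟨a1, Nat.lt_succ_of_le a2⟩)))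
      exact single_le_sum (f := fun I => 2 / 2 ^ γ * (Sur (S + H) c P 0 b (u I) : ℝ))
        (fun _ _ => by positivity) ((m𝓘 γ I).2 a3)
    · positivity
  refine (hA.mono _ _ _ _ fun H _ => s1 H).trans ?_
  rw [hA.sum]
  have s2 : ∀ γ ∈ Ico N (N + N * f + 1), Ex (Hs st B B) (fun H => ∑ I ∈ 𝓘 γ,
      2 / 2 ^ γ * (Sur (S + H) c P 0 b (u I) : ℝ)) ≤ 4 * |C| * (7 / 8) ^ γ := by
    intro γ hγ
    have hγ' : γ ≤ x + x * x :=
      (Nat.le_of_lt_succ (mem_Ico.1 hγ).2).trans (add_le_add hN (Nat.mul_le_mul hN hf))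
    rw [hA.sum]
    have s3 : ∀ I ∈ 𝓘 γ, Ex (Hs st B B) (fun H => 2 / 2 ^ γ * (Sur (S + H) c P 0 b (u I) : ℝ)) ≤
        4 / 4 ^ γ := by
      intro I hI
      have hc := hG I γ ((m𝓘 γ I).1 hI)
      have : Finite (G I) := Nat.finite_of_card_ne_zero (by rw [hc]; positivity)
      have h2 := (abs_le.1 (hM Λ ι (G I) st au τ N S c B B P ∅ J 0 b (x ^ 5) x γ (u I) hL hO
        (fr au S c P b hO.sub) hc)).2
      have h3 := er_le hx hγ'
      rw [hA.mul]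
      calc _ ≤ 2 / 2 ^ γ * (2 * (1 / 2 ^ γ) : ℝ) :=
            mul_le_mul_of_nonneg_left (by linarith) (by positivity)
        _ = 4 / 4 ^ γ := by
            rw [show (4 : ℝ) ^ γ = 2 ^ γ * 2 ^ γ by rw [← mul_pow]; norm_num]
            field_simp
            norm_num
    refine (sum_le_card_nsmul _ _ _ s3).trans ?_
    rw [nsmul_eq_mul]
    refine (mul_le_mul_of_nonneg_right (c𝓘 γ) (by positivity)).trans_eq ?_
    rw [show (7 / 8 : ℝ) = 7 / 2 / 4 by norm_num, div_pow (7 / 2 : ℝ)]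
    ring
  refine (sum_le_sum s2).trans ?_
  rw [← mul_sum]
  have s4 := geom_sum_Ico_le_of_lt_one (x := (7 / 8 : ℝ)) (m := N) (n := N + N * f + 1)
    (by norm_num) (by norm_num)
  have s5 : (7 / 8 : ℝ) ^ N ≤ (9 / 10) ^ N := pow_le_pow_left₀ (by norm_num) (by norm_num) N
  have s6 : (7 / 8 : ℝ) ^ N / (1 - 7 / 8) = 8 * (7 / 8) ^ N := by ring
  calc _ ≤ 4 * |C| * (8 * (9 / 10) ^ N) :=
        mul_le_mul_of_nonneg_left (by linarith) (by positivity)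
    _ = _ := by ring

end Pool.Agent.MP_1246c0_nt.H12
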